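import Mathlib.Data.Fintype.Pi
import Mathlib.Data.Fintype.Prod
import Mathlib.Data.Finite.Prod
import Mathlib.Data.Set.Finite.Basic
import Mathlib.Order.Monotone.Basic
import Mathlib.Tactic

/-!
A finite-type argument for two-player games played in a bounded number of one-way passes over a
word.  `pass δ w q F` is the value, at the beginning of a pass over the word `w` in state `q`,
of the game whose continuation value (depending on the exit state and the rewritten word) is `F`.
-/

set_option autoImplicit false

namespace Pool.Agent.Lib.MP_0bab21_co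

variable {Q : Type}

/-- One left-to-right pass over a word, in continuation form. -/
def pass (δ : Q → Bool → ((Q × Bool) → Prop) → Prop) :
    List Bool → Q → ((Q × List Bool) → Prop) → Prop
  | [], q, F => F (q, [])
  | b :: w, q, F => δ q b (fun r => pass δ w r.1 (fun s => F (s.1, r.2 :: s.2)))

theorem pass_append (δ : Q → Bool → ((Q × Bool) → Prop) → Prop) (w v : List Bool) :
    ∀ (q : Q) (F : (Q × List Bool) → Prop),
      pass δ (w ++ v) q F =
        pass δ w q (fun r => pass δ v r.1 (fun s => F (s.1, r.2 ++ s.2))) := by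
  induction w with
  | nil => intro q F; simp [pass]
  | cons b w ih =>
    intro q F
    simp only [List.cons_append, pass]
    congr 1
    funext r
    rw [ih]

/-- The level-`i` types. -/
def Ty (Q : Type) : ℕ → Type
  | 0 => Unit
  | i + 1 => Q → ((Q × Ty Q i → Prop) → Prop)

theorem finite_Ty [Finite Q] : ∀ i, Finite (Ty Q i)
  | 0 => by unfold Ty; infer_instance
  | i + 1 => by
    have := finite_Ty i
    unfold Ty
    infer_instance

/-- The level-`i` type of a word: what can be forced in the next `i` passes. -/
def ty (δ : Q → Bool → ((Q × Bool) → Prop) → Prop) : (i : ℕ) → List Bool → Ty Q i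
  | 0, _ => ()
  | i + 1, w => fun q F => pass δ w q (fun r => F (r.1, ty δ i r.2))

/-- Composition of types. -/
def comp : (i : ℕ) → Ty Q i → Ty Q i → Ty Q i
  | 0, _, _ => ()
  | i + 1, t, s => fun q F => t q (fun r => s r.1 (fun r' => F (r'.1, comp i r.2 r'.2)))

theorem ty_append (δ : Q → Bool → ((Q × Bool) → Prop) → Prop) :
    ∀ (i : ℕ) (w v : List Bool), ty δ i (w ++ v) = comp i (ty δ i w) (ty δ i v)
  | 0, w, v => rfl
  | i + 1, w, v => by
    funext q F
    simp only [ty, comp, pass_append]
    congr 1
    funext r
    congr 1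
    funext s
    rw [ty_append δ i]

/-- The value of the game with `k` passes. -/
def V (δ : Q → Bool → ((Q × Bool) → Prop) → Prop) : ℕ → Q → List Bool → Prop
  | 0, _, _ => False
  | k + 1, q, w => pass δ w q (fun r => V δ k r.1 r.2)

/-- Evaluation of a type. -/
def evalTy : (k : ℕ) → Q → Ty Q k → Prop
  | 0, _, _ => False
  | k + 1, q, t => t q (fun r => evalTy k r.1 r.2)

theorem V_eq_evalTy (δ : Q → Bool → ((Q × Bool) → Prop) → Prop) :
    ∀ (k : ℕ) (q : Q) (w : List Bool), V δ k q w = evalTy k q (ty δ k w)
  | 0, q, w => rfl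
  | k + 1, q, w => by
    simp only [V, evalTy, ty]
    congr 1
    funext r
    rw [V_eq_evalTy δ k]

/-- A sequence in a finite type given by iterating a map is eventually periodic. -/
theorem eventually_periodic_of_rec {α : Type} [Finite α] (x : ℕ → α) (f : α → α)
    (hx : ∀ n, x (n + 1) = f (x n)) :
    ∃ N p : ℕ, 0 < p ∧ ∀ n, N ≤ n → x (n + p) = x n := by
  obtain ⟨a, b, hab, h⟩ := Finite.exists_ne_map_eq_of_infinite x
  have key : ∀ a b : ℕ, a < b → x a = x b → ∃ N p : ℕ, 0 < p ∧ ∀ n, N ≤ n → x (n + p) = x n := by
    intro a b hlt hEq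
    refine ⟨a, b - a, by omega, ?_⟩
    intro n hn
    induction n, hn using Nat.le_induction with
    | base => rw [show a + (b - a) = b by omega]; exact hEq.symm
    | succ n hn ih => rw [show n + 1 + (b - a) = (n + (b - a)) + 1 by omega, hx, hx, ih]
  rcases lt_or_gt_of_ne hab with hlt | hgt
  · exact key a b hlt h
  · exact key b a hgt h.symm

/-- The value of the game with `k` passes on a constant word is eventually periodic in the
length of the word. -/
theorem V_replicate_eventually_periodic [Finite Q]
    (δ : Q → Bool → ((Q × Bool) → Prop) → Prop) (k : ℕ) (q : Q) (b : Bool) :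
    ∃ N p : ℕ, 0 < p ∧ ∀ n, N ≤ n →
      (V δ k q (List.replicate (n + p) b) ↔ V δ k q (List.replicate n b)) := by
  have := finite_Ty (Q := Q) k
  obtain ⟨N, p, hp, h⟩ := eventually_periodic_of_rec
    (fun n => ty δ k (List.replicate n b)) (fun t => comp k (ty δ k [b]) t) (by
      intro n
      show ty δ k (List.replicate (n + 1) b) = comp k (ty δ k [b]) (ty δ k (List.replicate n b))
      rw [← ty_append]
      rfl)
  refine ⟨N, p, hp, ?_⟩
  intro n hn
  rw [V_eq_evalTy, V_eq_evalTy, h n hn]

end Pool.Agent.Lib.MP_0bab21_co
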