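import Mathlib
import Pool.Agent.Lib.MP_0bab21_co.Types

/-!
Kotzig's Nim on a circle of length `n` as a bounded-pass scanning game.
-/

set_option autoImplicit false

namespace Pool.Agent.Lib.MP_0bab21_co

/-- The recursion that defines `W S x`: the player to move wins when `S` is the set of occupied
squares and the last coin is on `x`. -/
def IsW (M : Finset ℕ) (n : ℕ) (W : Finset (ZMod n) → ZMod n → Prop) : Prop :=
  ∀ (S : Finset (ZMod n)) (x : ZMod n),
    W S x ↔ ∃ m ∈ M, (x + (m : ZMod n)) ∉ S ∧
      ¬ W (insert (x + (m : ZMod n)) S) (x + (m : ZMod n))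

/-- Existence of the outcome function, by recursion on the number of empty squares. -/
def Wrec (M : Finset ℕ) (n : ℕ) [NeZero n] (S : Finset (ZMod n)) (x : ZMod n) : Prop :=
  ∃ m ∈ M, ∃ _h : (x + (m : ZMod n)) ∉ S,
    ¬ Wrec M n (insert (x + (m : ZMod n)) S) (x + (m : ZMod n))
termination_by (Finset.univ \ S).card
decreasing_by
  apply Finset.card_lt_card
  rw [Finset.ssubset_iff_of_subset]
  · refine ⟨x + (m : ZMod n), ?_, ?_⟩
    · simp [_h]
    · simp
  · intro y hy
    simp only [Finset.mem_sdiff, Finset.mem_univ, true_and, Finset.mem_insert, not_or] at hy ⊢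
    exact hy.2

theorem isW_Wrec (M : Finset ℕ) (n : ℕ) [NeZero n] : IsW M n (Wrec M n) := by
  intro S x
  rw [Wrec]
  constructor
  · rintro ⟨m, hm, h, h'⟩
    exact ⟨m, hm, h, h'⟩
  · rintro ⟨m, hm, h, h'⟩
    exact ⟨m, hm, h, h'⟩

/-- The player who is about to place a coin on `y` wins. -/
def Land {n : ℕ} (W : Finset (ZMod n) → ZMod n → Prop) (S : Finset (ZMod n)) (y : ZMod n) :
    Prop := y ∉ S ∧ ¬ W (insert y S) y

/-- Reduction of a natural number modulo `B`. -/
def toF (B : ℕ) [NeZero B] (a : ℕ) : Fin B := ⟨a % B, Nat.mod_lt _ (NeZero.pos B)⟩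

theorem toF_val {B : ℕ} [NeZero B] {a : ℕ} (h : a < B) : (toF B a).val = a :=
  Nat.mod_eq_of_lt h

/-- The scanning step: the state is the number of squares still to be skipped before the next
coin is placed; the value is that of the player who places that coin. -/
def stepFn (M : Finset ℕ) (B : ℕ) [NeZero B] (q : Fin B) (b : Bool)
    (F : (Fin B × Bool) → Prop) : Prop :=
  if q.val = 0 then b = false ∧ ∀ m ∈ M, ¬ F (toF B (m - 1), true)
  else F (toF B (q.val - 1), b)

/-- The set of occupied squares described by a word. -/
def occ (n : ℕ) [NeZero n] (w : List Bool) : Finset (ZMod n) :=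
  Finset.univ.filter (fun x => w.getD x.val false = true)

theorem mem_occ {n : ℕ} [NeZero n] (w : List Bool) (j : ℕ) (hj : j < n) :
    ((j : ℕ) : ZMod n) ∈ occ n w ↔ w.getD j false = true := by
  simp [occ, ZMod.val_natCast, Nat.mod_eq_of_lt hj]

theorem occ_true {n : ℕ} [NeZero n] (d r : List Bool) (hlen : d.length + (r.length + 1) = n) :
    occ n (d ++ true :: r) = insert ((d.length : ℕ) : ZMod n) (occ n (d ++ false :: r)) := by
  ext x
  have hx : x = ((x.val : ℕ) : ZMod n) := (ZMod.natCast_zmod_val x).symm
  have hxl : x.val < n := ZMod.val_lt x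
  by_cases h : x.val = d.length
  · have hx' : x = ((d.length : ℕ) : ZMod n) := by rw [hx, h]
    simp only [Finset.mem_insert, hx', true_or, iff_true]
    rw [mem_occ _ _ (by omega)]
    simp [List.getD]
  · have hne : x ≠ ((d.length : ℕ) : ZMod n) := by
      intro he
      apply h
      rw [he, ZMod.val_natCast, Nat.mod_eq_of_lt (by omega)]
    simp only [Finset.mem_insert, hne, false_or]
    simp only [occ, Finset.mem_filter, Finset.mem_univ, true_and]
    rcases lt_or_gt_of_ne h with hlt | hgt
    · rw [List.getD_append _ _ _ _ hlt, List.getD_append _ _ _ _ hlt]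
    · rw [List.getD_append_right _ _ _ _ hgt.le, List.getD_append_right _ _ _ _ hgt.le]
      obtain ⟨t, ht⟩ : ∃ t, x.val - d.length = t + 1 := ⟨x.val - d.length - 1, by omega⟩
      rw [ht]
      simp [List.getD]

/-- number of empty squares among the first `B` squares -/
def emp (B : ℕ) (w : List Bool) : ℕ := (w.take B).count false

theorem emp_true_lt (B : ℕ) (d r : List Bool) (h : d.length < B) :
    emp B (d ++ true :: r) + 1 = emp B (d ++ false :: r) := by
  unfold emp
  obtain ⟨t, ht⟩ : ∃ t, B - d.length = t + 1 := ⟨B - d.length - 1, by omega⟩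
  rw [List.take_append, List.take_append, ht]
  simp [List.take_succ_cons]
  omega

theorem emp_true_le (B : ℕ) (d r : List Bool) :
    emp B (d ++ true :: r) ≤ emp B (d ++ false :: r) := by
  rcases lt_or_ge d.length B with h | h
  · have := emp_true_lt B d r h
    omega
  · unfold emp
    rw [List.take_append_of_le_length h, List.take_append_of_le_length h]

theorem inner {M : Finset ℕ} {B : ℕ} [NeZero B] (hM : ∀ m ∈ M, 0 < m ∧ m < B)
    {n : ℕ} [NeZero n] (hn : B ≤ n) {W : Finset (ZMod n) → ZMod n → Prop} (hW : IsW M n W)
    (k : ℕ)
    (hk : ∀ (w : List Bool), w.length = n → emp B w < k → ∀ c : Fin B,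
      (V (stepFn M B) k c w ↔ Land W (occ n w) ((c.val : ℕ) : ZMod n))) :
    ∀ (r d : List Bool), d.length + r.length = n → ∀ c : Fin B,
      ((d.length + c.val < B ∧ emp B (d ++ r) ≤ k) ∨ emp B (d ++ r) < k) →
      (pass (stepFn M B) r c (fun s => V (stepFn M B) k s.1 (d ++ s.2)) ↔
        Land W (occ n (d ++ r)) ((d.length + c.val : ℕ) : ZMod n)) := by
  intro r
  induction r with
  | nil =>
    intro d hd c hcond
    simp only [List.length_nil, add_zero] at hd
    simp only [List.append_nil] at hcond ⊢
    have he : emp B d < k := by
      rcases hcond with h | h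
      · omega
      · exact h
    show V (stepFn M B) k c (d ++ []) ↔ _
    rw [List.append_nil, hk d hd he c, hd]
    push_cast
    simp
  | cons b r ih =>
    intro d hd c hcond
    simp only [List.length_cons] at hd
    simp only [pass]
    by_cases hc : c.val = 0
    · simp only [stepFn, hc, if_true, add_zero]
      cases b with
      | true =>
        simp only [Bool.true_eq_false, false_and, false_iff]
        intro hL
        apply hL.1
        rw [mem_occ _ _ (by omega)]
        simp [List.getD]
      | false =>
        simp only [true_and]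
        unfold Land
        have hmem : ((d.length : ℕ) : ZMod n) ∉ occ n (d ++ false :: r) := by
          rw [mem_occ _ _ (by omega)]
          simp [List.getD]
        simp only [hmem, not_false_eq_true, true_and]
        rw [← occ_true d r hd, hW]
        push Not
        apply forall_congr'
        intro m
        apply forall_congr'
        intro hm
        obtain ⟨hm0, hmB⟩ := hM m hm
        have hcv : (toF B (m - 1)).val = m - 1 := toF_val (by omega)
        have key := ih (d ++ [true]) (by simp; omega) (toF B (m - 1)) (by
          right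
          have h1 : (d ++ [true]) ++ r = d ++ true :: r := by simp
          rw [h1]
          rcases hcond with ⟨h2, h3⟩ | h3
          · have := emp_true_lt B d r (by omega)
            omega
          · have := emp_true_le B d r
            omega)
        have h1 : ∀ s : List Bool, (d ++ [true]) ++ s = d ++ true :: s := by intro s; simp
        simp only [h1] at key
        rw [key, hcv]
        have h2 : (((d ++ [true]).length + (m - 1) : ℕ) : ZMod n) =
            ((d.length : ℕ) : ZMod n) + (m : ZMod n) := by
          rw [← Nat.cast_add]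
          congr 1
          simp
          omega
        rw [h2]
        unfold Land
        tauto
    · simp only [stepFn, hc, if_false]
      have hcv : (toF B (c.val - 1)).val = c.val - 1 := toF_val (by have := c.isLt; omega)
      have h1 : ∀ s : List Bool, (d ++ [b]) ++ s = d ++ b :: s := by intro s; simp
      have key := ih (d ++ [b]) (by simp; omega) (toF B (c.val - 1)) (by
        rw [h1, hcv]
        rcases hcond with ⟨h2, h3⟩ | h3
        · left
          refine ⟨?_, h3⟩
          simp
          omega
        · right
          exact h3)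
      simp only [h1] at key
      rw [key, hcv]
      have h2 : (d ++ [b]).length + (c.val - 1) = d.length + c.val := by
        simp
        omega
      rw [h2]

theorem V_iff_Land {M : Finset ℕ} {B : ℕ} [NeZero B] (hM : ∀ m ∈ M, 0 < m ∧ m < B)
    {n : ℕ} [NeZero n] (hn : B ≤ n) {W : Finset (ZMod n) → ZMod n → Prop} (hW : IsW M n W) :
    ∀ (k : ℕ) (w : List Bool), w.length = n → emp B w < k → ∀ c : Fin B,
      (V (stepFn M B) k c w ↔ Land W (occ n w) ((c.val : ℕ) : ZMod n)) := by
  intro k
  induction k with
  | zero => intro w _ h; omega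
  | succ k ih =>
    intro w hw he c
    have h := inner hM hn hW k ih w [] (by simpa using hw) c (by
      left
      refine ⟨?_, ?_⟩
      · simp
      · simp only [List.nil_append]
        omega)
    simpa [V] using h

theorem exists_W_iff {M : Finset ℕ} {B : ℕ} [NeZero B] (hM : ∀ m ∈ M, 0 < m ∧ m < B)
    {n : ℕ} (hn : B ≤ n) :
    (∃ W : Finset (ZMod n) → ZMod n → Prop, IsW M n W ∧ W {0} 0) ↔
      ¬ V (stepFn M B) (B + 1) 0 (List.replicate n false) := by
  have hB : 0 < B := Nat.pos_of_ne_zero (NeZero.ne B)
  have : NeZero n := ⟨by omega⟩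
  have hocc : occ n (List.replicate n false) = ∅ := by
    ext x
    simp only [occ, Finset.mem_filter, Finset.mem_univ, true_and, Finset.notMem_empty, iff_false]
    rw [List.getD_replicate _ (ZMod.val_lt x)]
    simp
  have hemp : emp B (List.replicate n false) < B + 1 := by
    unfold emp
    have := List.count_le_length (a := false) (l := (List.replicate n false).take B)
    have h2 : ((List.replicate n false).take B).length ≤ B := by simp
    omega
  have key : ∀ W : Finset (ZMod n) → ZMod n → Prop, IsW M n W →
      (V (stepFn M B) (B + 1) 0 (List.replicate n false) ↔ ¬ W {0} 0) := by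
    intro W hW
    rw [V_iff_Land hM hn hW (B + 1) _ (by simp) hemp 0, hocc]
    simp [Land]
  constructor
  · rintro ⟨W, hW, h0⟩
    rw [key W hW]
    exact not_not.mpr h0
  · intro h
    refine ⟨Wrec M n, isW_Wrec M n, ?_⟩
    rw [key _ (isW_Wrec M n)] at h
    exact not_not.mp h

end Pool.Agent.Lib.MP_0bab21_co
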